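import Pool.Agent.helper32.EB.Defs2

open MeasureTheory ProbabilityTheory Filter Topology
open scoped ENNReal NNReal

namespace Pool.Agent.helper32.EB

theorem LH_circle (z y : ℂ) (hy : ‖y‖ < ‖z‖) :
    ∫ θ in (0 : ℝ)..(2 * Real.pi), Real.log ‖z + Complex.exp (θ * Complex.I) * y‖
      = 2 * Real.pi * Real.log ‖z‖ := by
  have h1 := AnalyticOnNhd.circleAverage_log_norm_of_ne_zero (R := 1) (c := 0)
    (g := fun w : ℂ => z + w * y)
    (fun w _ => analyticAt_const.add (analyticAt_id.mul analyticAt_const))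
    (by
      intro u hu h0
      have hu' : ‖u‖ ≤ 1 := by simpa using hu
      have : z = -(u * y) := by linear_combination h0
      have h2 : ‖z‖ ≤ ‖y‖ := by
        rw [this, norm_neg, norm_mul]
        have := norm_nonneg y
        nlinarith
      linarith)
  rw [Real.circleAverage_def] at h1
  simp only [circleMap, Complex.ofReal_one, one_mul, zero_add, zero_mul, add_zero] at h1
  have hpi : (2 * Real.pi : ℝ) ≠ 0 := by positivity
  rw [smul_eq_mul] at h1
  field_simp at h1
  linarith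

theorem log_harm {ν : Measure ℂ} {h : ℝ} (hν : RotStep ν h) (hh : 0 < h) (z : ℂ)
    (hz : 2 * h ≤ ‖z‖) :
    Integrable (fun y => Real.log ‖z + y‖) ν ∧ ∫ y, Real.log ‖z + y‖ ∂ν = Real.log ‖z‖ := by
  have := hν.prob
  have hmeas : Measurable (fun y : ℂ => Real.log ‖z + y‖) := by fun_prop
  have hbd : ∀ y : ℂ, ‖y‖ < h → ‖Real.log ‖z + y‖‖ ≤ |Real.log h| + |Real.log (‖z‖ + h)| := by
    intro y hy
    have h1 : h ≤ ‖z + y‖ := by
      have : ‖z‖ ≤ ‖z + y‖ + ‖y‖ := by
        simpa using norm_sub_le (z + y) y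
      linarith
    have h2 : ‖z + y‖ ≤ ‖z‖ + h := (norm_add_le _ _).trans (by linarith)
    have h3 : Real.log h ≤ Real.log ‖z + y‖ := Real.log_le_log hh h1
    have h4 : Real.log ‖z + y‖ ≤ Real.log (‖z‖ + h) := Real.log_le_log (by linarith) h2
    rw [Real.norm_eq_abs, abs_le]
    constructor
    · have := neg_abs_le (Real.log h)
      have := abs_nonneg (Real.log (‖z‖ + h))
      linarith
    · have := le_abs_self (Real.log (‖z‖ + h))
      have := abs_nonneg (Real.log h)
      linarith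
  have hint : Integrable (fun y => Real.log ‖z + y‖) ν :=
    Integrable.of_bound hmeas.aestronglyMeasurable (|Real.log h| + |Real.log (‖z‖ + h)|)
      (hν.bdd.mono hbd)
  refine ⟨hint, ?_⟩
  have hrot : ∀ θ : ℝ, ∫ y, Real.log ‖z + Complex.exp (θ * Complex.I) * y‖ ∂ν
      = ∫ y, Real.log ‖z + y‖ ∂ν := by
    intro θ
    have hc := hν.rot (Complex.exp (θ * Complex.I)) (Complex.norm_exp_ofReal_mul_I θ)
    conv_rhs => rw [← hc]
    rw [integral_map (by fun_prop) hmeas.aestronglyMeasurable]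
  have hfin : IsFiniteMeasure (volume.restrict (Set.uIoc 0 (2 * Real.pi))) :=
    ⟨by rw [Measure.restrict_apply_univ, Set.uIoc]; exact measure_Ioc_lt_top⟩
  have hprod : Integrable (Function.uncurry fun (θ : ℝ) (y : ℂ) =>
      Real.log ‖z + Complex.exp (θ * Complex.I) * y‖)
      ((volume.restrict (Set.uIoc 0 (2 * Real.pi))).prod ν) := by
    have h1 : ∀ᵐ p : ℝ × ℂ ∂((volume.restrict (Set.uIoc 0 (2 * Real.pi))).prod ν), ‖p.2‖ < h :=
      Measure.quasiMeasurePreserving_snd.ae hν.bdd
    refine Integrable.of_bound (Measurable.aestronglyMeasurable (by fun_prop))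
      (|Real.log h| + |Real.log (‖z‖ + h)|) ?_
    filter_upwards [h1] with p hp
    refine hbd _ ?_
    rw [norm_mul, Complex.norm_exp_ofReal_mul_I, one_mul]
    exact hp
  have hsw := intervalIntegral_integral_swap (a := 0) (b := 2 * Real.pi) (μ := ν)
    (f := fun (θ : ℝ) (y : ℂ) => Real.log ‖z + Complex.exp (θ * Complex.I) * y‖) hprod
  simp only [hrot] at hsw
  have h3 : ∫ y, (∫ θ in (0 : ℝ)..(2 * Real.pi),
      Real.log ‖z + Complex.exp (θ * Complex.I) * y‖) ∂ν = 2 * Real.pi * Real.log ‖z‖ := by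
    have : ∀ᵐ y ∂ν, (∫ θ in (0 : ℝ)..(2 * Real.pi),
        Real.log ‖z + Complex.exp (θ * Complex.I) * y‖) = 2 * Real.pi * Real.log ‖z‖ := by
      filter_upwards [hν.bdd] with y hy
      exact LH_circle z y (by linarith)
    rw [integral_congr_ae this]
    simp
  rw [h3] at hsw
  rw [intervalIntegral.integral_const, sub_zero, smul_eq_mul] at hsw
  have hpi : (0 : ℝ) < 2 * Real.pi := by positivity
  exact mul_left_cancel₀ hpi.ne' hsw

end Pool.Agent.helper32.EB
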