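import Pool.Agent.helper32.EB.Defs2

open MeasureTheory ProbabilityTheory Filter Topology
open scoped ENNReal NNReal

namespace Pool.Agent.helper32.EB

theorem EC_path (γ : ℝ → ℂ) (hγ : Continuous γ) (c : ℂ) (ρ : ℝ) (hρ : 0 < ρ)
    (h0 : ‖γ 0 - c‖ ≤ ρ) (h1 : 3 * ρ ≤ ‖γ 1 - c‖) :
    (∃ α β : ℝ, ρ ≤ β - α ∧ c.re - 4 * ρ ≤ α ∧ β ≤ c.re + 4 * ρ ∧
      ∀ u, α ≤ u → u ≤ β → ∃ v, |v - c.im| ≤ 4 * ρ ∧ ∃ τ ∈ Set.Icc (0 : ℝ) 1, γ τ = ⟨u, v⟩) ∨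
    (∃ α β : ℝ, ρ ≤ β - α ∧ c.im - 4 * ρ ≤ α ∧ β ≤ c.im + 4 * ρ ∧
      ∀ v, α ≤ v → v ≤ β → ∃ u, |u - c.re| ≤ 4 * ρ ∧ ∃ τ ∈ Set.Icc (0 : ℝ) 1, γ τ = ⟨u, v⟩) := by
  have hD : Continuous (fun τ => ‖γ τ - c‖) := by fun_prop
  have hS : IsCompact (Set.Icc (0 : ℝ) 1 ∩ {τ | 3 * ρ ≤ ‖γ τ - c‖}) :=
    isCompact_Icc.inter_right (isClosed_le continuous_const hD)
  obtain ⟨a, ⟨⟨ha0, ha1⟩, haD⟩, hmin⟩ := hS.exists_isLeast ⟨1, ⟨by norm_num, by norm_num⟩, h1⟩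
  have haD' : 3 * ρ ≤ ‖γ a - c‖ := haD
  have hle : ∀ τ ∈ Set.Icc (0 : ℝ) a, ‖γ τ - c‖ ≤ 3 * ρ := by
    intro τ hτ
    by_contra hcon
    push Not at hcon
    obtain ⟨σ, hσ, hσ'⟩ := intermediate_value_Icc hτ.1 hD.continuousOn
      (show 3 * ρ ∈ Set.Icc ‖γ 0 - c‖ ‖γ τ - c‖ from ⟨by linarith, hcon.le⟩)
    have hσ'' : ‖γ σ - c‖ = 3 * ρ := hσ'
    have h2 : a ≤ σ := hmin ⟨⟨hσ.1, by linarith [hσ.2, hτ.2]⟩, hσ''.ge⟩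
    have h3 : σ = τ := le_antisymm hσ.2 (hτ.2.trans h2)
    rw [h3] at hσ''
    linarith
  have hre : ∀ τ ∈ Set.Icc (0 : ℝ) a, |(γ τ).re - c.re| ≤ 3 * ρ := by
    intro τ hτ
    have := Complex.abs_re_le_norm (γ τ - c)
    rw [Complex.sub_re] at this
    exact this.trans (hle τ hτ)
  have him : ∀ τ ∈ Set.Icc (0 : ℝ) a, |(γ τ).im - c.im| ≤ 3 * ρ := by
    intro τ hτ
    have := Complex.abs_im_le_norm (γ τ - c)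
    rw [Complex.sub_im] at this
    exact this.trans (hle τ hτ)
  have h0a : (0 : ℝ) ∈ Set.Icc (0 : ℝ) a := ⟨le_rfl, ha0⟩
  have haa : a ∈ Set.Icc (0 : ℝ) a := ⟨ha0, le_rfl⟩
  have hdist : 2 * ρ ≤ ‖γ a - γ 0‖ := by
    have : ‖γ a - c‖ ≤ ‖γ a - γ 0‖ + ‖γ 0 - c‖ := by
      simpa using norm_add_le (γ a - γ 0) (γ 0 - c)
    linarith
  have hcases : ρ ≤ |(γ a).re - (γ 0).re| ∨ ρ ≤ |(γ a).im - (γ 0).im| := by
    by_contra hcon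
    push Not at hcon
    have := Complex.norm_le_abs_re_add_abs_im (γ a - γ 0)
    rw [Complex.sub_re, Complex.sub_im] at this
    linarith [hcon.1, hcon.2]
  rcases hcases with h | h
  · left
    refine ⟨min (γ 0).re (γ a).re, max (γ 0).re (γ a).re, ?_, ?_, ?_, ?_⟩
    · rw [max_sub_min_eq_abs]
      exact h
    · have e1 := abs_le.1 (hre 0 h0a)
      have e2 := abs_le.1 (hre a haa)
      exact le_min (by linarith [e1.1]) (by linarith [e2.1])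
    · have e1 := abs_le.1 (hre 0 h0a)
      have e2 := abs_le.1 (hre a haa)
      exact max_le (by linarith [e1.2]) (by linarith [e2.2])
    · intro u hu1 hu2
      have hf : ContinuousOn (fun τ => (γ τ).re) (Set.uIcc 0 a) := by fun_prop
      obtain ⟨τ, hτ, hτu⟩ := intermediate_value_uIcc hf
        (show u ∈ Set.uIcc (γ 0).re (γ a).re from ⟨hu1, hu2⟩)
      rw [Set.uIcc_of_le ha0] at hτ
      refine ⟨(γ τ).im, (him τ hτ).trans (by linarith), τ, ⟨hτ.1, hτ.2.trans ha1⟩, ?_⟩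
      exact Complex.ext hτu rfl
  · right
    refine ⟨min (γ 0).im (γ a).im, max (γ 0).im (γ a).im, ?_, ?_, ?_, ?_⟩
    · rw [max_sub_min_eq_abs]
      exact h
    · have e1 := abs_le.1 (him 0 h0a)
      have e2 := abs_le.1 (him a haa)
      exact le_min (by linarith [e1.1]) (by linarith [e2.1])
    · have e1 := abs_le.1 (him 0 h0a)
      have e2 := abs_le.1 (him a haa)
      exact max_le (by linarith [e1.2]) (by linarith [e2.2])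
    · intro v hv1 hv2
      have hf : ContinuousOn (fun τ => (γ τ).im) (Set.uIcc 0 a) := by fun_prop
      obtain ⟨τ, hτ, hτv⟩ := intermediate_value_uIcc hf
        (show v ∈ Set.uIcc (γ 0).im (γ a).im from ⟨hv1, hv2⟩)
      rw [Set.uIcc_of_le ha0] at hτ
      refine ⟨(γ τ).re, (hre τ hτ).trans (by linarith), τ, ⟨hτ.1, hτ.2.trans ha1⟩, ?_⟩
      exact Complex.ext rfl hτv

theorem crossing (b : ℝ≥0 → ℂ) (hb : Continuous b) (s ρ : ℝ) (hρ : 0 < ρ) (hρ1 : ρ ≤ 1 / 100)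
    (hd : ∀ x : ℂ, ∃ t : ℝ≥0, (t : ℝ) ≤ s ∧ ‖disp (b t - x)‖ ≤ ρ) (c : ℂ) :
    (∃ α β : ℝ, ρ ≤ β - α ∧ c.re - 4 * ρ ≤ α ∧ β ≤ c.re + 4 * ρ ∧
      ∀ u, α ≤ u → u ≤ β → ∃ v, |v - c.im| ≤ 4 * ρ ∧ ∃ t : ℝ≥0, (t : ℝ) ≤ s ∧
        ∃ m n : ℤ, b t = ⟨u + m, v + n⟩) ∨
    (∃ α β : ℝ, ρ ≤ β - α ∧ c.im - 4 * ρ ≤ α ∧ β ≤ c.im + 4 * ρ ∧
      ∀ v, α ≤ v → v ≤ β → ∃ u, |u - c.re| ≤ 4 * ρ ∧ ∃ t : ℝ≥0, (t : ℝ) ≤ s ∧
        ∃ m n : ℤ, b t = ⟨u + m, v + n⟩) := by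
  obtain ⟨t0, ht0s, ht0⟩ := hd c
  obtain ⟨t1, ht1s, ht1⟩ := hd (c + ⟨1 / 2, 1 / 2⟩)
  obtain ⟨m0, hm0⟩ : ∃ m0 : ℤ, m0 = round (b t0 - c).re := ⟨_, rfl⟩
  obtain ⟨n0, hn0⟩ : ∃ n0 : ℤ, n0 = round (b t0 - c).im := ⟨_, rfl⟩
  obtain ⟨γ, hγdef⟩ : ∃ γ : ℝ → ℂ, γ = fun τ =>
      b (Real.toNNReal ((t0 : ℝ) + τ * ((t1 : ℝ) - t0))) - ⟨m0, n0⟩ := ⟨_, rfl⟩
  have hγ : Continuous γ := by
    rw [hγdef]
    exact (hb.comp (continuous_real_toNNReal.comp (by fun_prop))).sub continuous_const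
  have hγ0 : γ 0 = b t0 - ⟨m0, n0⟩ := by
    rw [hγdef]; simp
  have hγ1 : γ 1 = b t1 - ⟨m0, n0⟩ := by
    rw [hγdef]; simp
  have hγs : ∀ τ ∈ Set.Icc (0 : ℝ) 1, ∃ t : ℝ≥0, (t : ℝ) ≤ s ∧ b t = γ τ + ⟨m0, n0⟩ := by
    intro τ hτ
    refine ⟨Real.toNNReal ((t0 : ℝ) + τ * ((t1 : ℝ) - t0)), ?_, by rw [hγdef]; ring⟩
    have hpos : 0 ≤ (t0 : ℝ) + τ * ((t1 : ℝ) - t0) := by
      have := t0.coe_nonneg
      have := t1.coe_nonneg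
      nlinarith [hτ.1, hτ.2, mul_nonneg (sub_nonneg.2 hτ.2) t0.coe_nonneg,
        mul_nonneg hτ.1 t1.coe_nonneg]
    rw [Real.coe_toNNReal _ hpos]
    nlinarith [hτ.1, hτ.2, mul_le_mul_of_nonneg_left ht1s hτ.1,
      mul_le_mul_of_nonneg_left ht0s (sub_nonneg.2 hτ.2)]
  have h0 : ‖γ 0 - c‖ ≤ ρ := by
    have : γ 0 - c = disp (b t0 - c) := by
      rw [hγ0]
      apply Complex.ext
      · simp [disp, hm0]; ring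
      · simp [disp, hn0]; ring
    rw [this]; exact ht0
  have h1 : 3 * ρ ≤ ‖γ 1 - c‖ := by
    obtain ⟨k, hk⟩ : ∃ k : ℤ, k = round (b t1 - (c + ⟨1 / 2, 1 / 2⟩)).re - m0 := ⟨_, rfl⟩
    have hre : (γ 1 - c).re = (disp (b t1 - (c + ⟨1 / 2, 1 / 2⟩))).re + 1 / 2 + k := by
      rw [hγ1, hk]
      simp [disp]; ring
    have h2 := Complex.abs_re_le_norm (γ 1 - c)
    have h3 := (Complex.abs_re_le_norm (disp (b t1 - (c + ⟨1 / 2, 1 / 2⟩)))).trans ht1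
    rw [hre] at h2
    have h4 := abs_le.1 h3
    have h5 : (k : ℝ) ≤ -1 ∨ (0 : ℝ) ≤ k := by
      rcases le_or_gt 0 k with h | h
      · right; exact_mod_cast h
      · left; exact_mod_cast (by omega : k ≤ -1)
    rcases h5 with h5 | h5
    · have := neg_le_abs ((disp (b t1 - (c + ⟨1 / 2, 1 / 2⟩))).re + 1 / 2 + k)
      linarith [h4.1, h4.2]
    · have := le_abs_self ((disp (b t1 - (c + ⟨1 / 2, 1 / 2⟩))).re + 1 / 2 + k)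
      linarith [h4.1, h4.2]
  rcases EC_path γ hγ c ρ hρ h0 h1 with ⟨α, β, e1, e2, e3, e4⟩ | ⟨α, β, e1, e2, e3, e4⟩
  · left
    refine ⟨α, β, e1, e2, e3, fun u hu1 hu2 => ?_⟩
    obtain ⟨v, hv, τ, hτ, hτe⟩ := e4 u hu1 hu2
    obtain ⟨t, hts, ht⟩ := hγs τ hτ
    refine ⟨v, hv, t, hts, m0, n0, ?_⟩
    rw [ht, hτe]
    apply Complex.ext <;> simp
  · right
    refine ⟨α, β, e1, e2, e3, fun v hv1 hv2 => ?_⟩
    obtain ⟨u, hu, τ, hτ, hτe⟩ := e4 v hv1 hv2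
    obtain ⟨t, hts, ht⟩ := hγs τ hτ
    refine ⟨u, hu, t, hts, m0, n0, ?_⟩
    rw [ht, hτe]
    apply Complex.ext <;> simp

end Pool.Agent.helper32.EB
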